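import Pool.Agent.Helper40.IM.Ent

/-!
# Immersions of the hypersurfaces `A(w) + B(w) G(z) = 1`
-/

open MvPolynomial

namespace Pool.Agent.Helper40.IM

/-- The derivative of a polynomial function. -/
theorem hasFDerivAt_eval {m : ℕ} (F : MvPolynomial (Fin m) ℂ) (w : Fin m → ℂ) :
    HasFDerivAt (fun w : Fin m → ℂ => eval w F)
      (∑ i, (eval w (pderiv i F)) • (ContinuousLinearMap.proj i : (Fin m → ℂ) →L[ℂ] ℂ)) w := by
  induction F using MvPolynomial.induction_on with
  | C a =>
    have h1 : (fun w : Fin m → ℂ => eval w (C a : MvPolynomial (Fin m) ℂ)) = fun _ => a := by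
      ext w
      simp
    rw [h1]
    refine (hasFDerivAt_const a w).congr_fderiv ?_
    ext v
    simp
  | add p q hp hq =>
    have h1 : (fun w : Fin m → ℂ => eval w (p + q)) = fun w => eval w p + eval w q := by
      ext w
      simp
    rw [h1]
    refine (hp.fun_add hq).congr_fderiv ?_
    ext v
    simp [ContinuousLinearMap.sum_apply, ← Finset.sum_add_distrib, add_mul]
  | mul_X p j hp =>
    have hX : HasFDerivAt (fun w : Fin m → ℂ => w j)
        (ContinuousLinearMap.proj j : (Fin m → ℂ) →L[ℂ] ℂ) w :=
      (ContinuousLinearMap.proj j : (Fin m → ℂ) →L[ℂ] ℂ).hasFDerivAt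
    have h1 : (fun w : Fin m → ℂ => eval w (p * X j)) = fun w => eval w p * w j := by
      ext w
      simp
    rw [h1]
    refine (hp.fun_mul hX).congr_fderiv ?_
    ext v
    simp only [Derivation.leibniz, pderiv_X, ContinuousLinearMap.add_apply,
      ContinuousLinearMap.smul_apply, ContinuousLinearMap.sum_apply,
      ContinuousLinearMap.proj_apply, smul_eq_mul, map_add, map_mul, eval_X, Finset.mul_sum,
      add_mul, Finset.sum_add_distrib]
    congr 1
    · rw [Finset.sum_eq_single j]
      · simp
      · intro i _ hi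
        rw [Pi.single_eq_of_ne (Ne.symm hi)]
        simp
      · simp
    · refine Finset.sum_congr rfl fun i _ => ?_
      ring

theorem fderiv_eval {m : ℕ} (F : MvPolynomial (Fin m) ℂ) (w v : Fin m → ℂ) :
    fderiv ℂ (fun w : Fin m → ℂ => eval w F) w v = ∑ i, v i * eval w (pderiv i F) := by
  rw [(hasFDerivAt_eval F w).fderiv]
  simp [ContinuousLinearMap.sum_apply, mul_comm]

theorem differentiable_eval {m : ℕ} (F : MvPolynomial (Fin m) ℂ) :
    Differentiable ℂ (fun w : Fin m → ℂ => eval w F) :=
  fun w => (hasFDerivAt_eval F w).differentiableAt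

/-- `φ` is a holomorphic one-parameter group of automorphisms of `ℂⁿ`. -/
structure IsFlow {n : ℕ} (φ : ℂ → (Fin n → ℂ) → (Fin n → ℂ)) : Prop where
  diff : Differentiable ℂ fun p : ℂ × (Fin n → ℂ) => φ p.1 p.2
  zero : ∀ z, φ 0 z = z
  add : ∀ s t z, φ (s + t) z = φ s (φ t z)

/-- The analytic core, for functions. -/
theorem core {n : ℕ} (A B : Polynomial ℂ) (G : MvPolynomial (Fin n) ℂ)
    (φ : ℂ → (Fin n → ℂ) → (Fin n → ℂ)) (hφ : IsFlow φ)
    (hG : ∀ t z, eval (φ t z) G = Complex.exp t * eval z G)
    (hA : Squarefree (1 - A) ∨ ∃ z, eval z G = 0 ∧ ∀ i, eval z (pderiv i G) = 0)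
    (E : (Fin (n + 1) → ℂ) → ℂ)
    (hE : ∀ w, E w = A.eval (w 0) + B.eval (w 0) * eval (fun i => w (Fin.succ i)) G)
    (hs : ∀ w, E w = 1 → fderiv ℂ E w ≠ 0) :
    ∃ f : (Fin (n + 1) → ℂ) → (Fin n → ℂ), Differentiable ℂ f ∧
      ∀ w, E w = 1 → ∀ v, fderiv ℂ E w v = 0 → fderiv ℂ f w v = 0 → v = 0 := by
  obtain ⟨h, hh, hne⟩ := exists_logDeriv (1 - A) B
  -- the projections
  let π : (Fin (n + 1) → ℂ) →L[ℂ] ℂ := ContinuousLinearMap.proj 0
  let τ : (Fin (n + 1) → ℂ) →L[ℂ] (Fin n → ℂ) :=
    ContinuousLinearMap.pi fun i => ContinuousLinearMap.proj (Fin.succ i)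
  have hπ : ∀ w, π w = w 0 := fun w => rfl
  have hτ : ∀ w, τ w = fun i => w (Fin.succ i) := fun w => rfl
  let g : (Fin n → ℂ) → ℂ := fun z => eval z G
  have hg : Differentiable ℂ g := differentiable_eval G
  let f : (Fin (n + 1) → ℂ) → (Fin n → ℂ) := fun w => φ (h (π w)) (τ w)
  have hf : Differentiable ℂ f := by
    have h1 : Differentiable ℂ fun w : Fin (n + 1) → ℂ => (h (π w), τ w) :=
      (hh.comp π.differentiable).prodMk τ.differentiable
    exact hφ.diff.comp h1
  have hE' : E = fun w => A.eval (π w) + B.eval (π w) * g (τ w) := by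
    ext w
    exact hE w
  -- the derivative of `E`
  have hEd : ∀ w, HasFDerivAt E
      (A.derivative.eval (π w) • π + (B.eval (π w) • (fderiv ℂ g (τ w)).comp τ +
        g (τ w) • (B.derivative.eval (π w) • π))) w := by
    intro w
    rw [hE']
    have a1 : HasFDerivAt (fun w => A.eval (π w)) (A.derivative.eval (π w) • π) w :=
      (A.hasDerivAt (π w)).comp_hasFDerivAt w π.hasFDerivAt
    have b1 : HasFDerivAt (fun w => B.eval (π w)) (B.derivative.eval (π w) • π) w :=
      (B.hasDerivAt (π w)).comp_hasFDerivAt w π.hasFDerivAt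
    have g1 : HasFDerivAt (fun w => g (τ w)) ((fderiv ℂ g (τ w)).comp τ) w :=
      (hg (τ w)).hasFDerivAt.comp w τ.hasFDerivAt
    exact a1.add (b1.mul g1)
  have hEv : ∀ w v, fderiv ℂ E w v = A.derivative.eval (π w) * π v +
      (B.eval (π w) * fderiv ℂ g (τ w) (τ v) + g (τ w) * (B.derivative.eval (π w) * π v)) := by
    intro w v
    rw [(hEd w).fderiv]
    simp
  refine ⟨f, hf, fun w hw v hv hfv => ?_⟩
  -- the function `g ∘ f`
  have hgf : ∀ w, g (f w) = Complex.exp (h (π w)) * g (τ w) := fun w => hG _ _
  have hgd : HasFDerivAt (fun w => g (f w))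
      (Complex.exp (h (π w)) • (fderiv ℂ g (τ w)).comp τ +
        g (τ w) • (Complex.exp (h (π w)) • (deriv h (π w) • π))) w := by
    rw [funext hgf]
    have h1 : HasFDerivAt (fun w => h (π w)) (deriv h (π w) • π) w :=
      (hh (π w)).hasDerivAt.comp_hasFDerivAt w π.hasFDerivAt
    have g1 : HasFDerivAt (fun w => g (τ w)) ((fderiv ℂ g (τ w)).comp τ) w :=
      (hg (τ w)).hasFDerivAt.comp w τ.hasFDerivAt
    exact h1.cexp.mul g1
  have hgv : fderiv ℂ g (τ w) (τ v) = - (g (τ w) * (deriv h (π w) * π v)) := by
    have h1 : fderiv ℂ (fun w => g (f w)) w v = 0 := by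
      have h2 : HasFDerivAt (fun w => g (f w)) ((fderiv ℂ g (f w)).comp (fderiv ℂ f w)) w :=
        (hg (f w)).hasFDerivAt.comp w (hf w).hasFDerivAt
      rw [h2.fderiv, ContinuousLinearMap.comp_apply, hfv, map_zero]
    rw [hgd.fderiv] at h1
    simp only [ContinuousLinearMap.add_apply, ContinuousLinearMap.smul_apply,
      ContinuousLinearMap.comp_apply, smul_eq_mul] at h1
    have h3 : Complex.exp (h (π w)) * (fderiv ℂ g (τ w) (τ v) +
        g (τ w) * (deriv h (π w) * π v)) = 0 := by linear_combination h1
    rcases mul_eq_zero.1 h3 with h4 | h4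
    · exact absurd h4 (Complex.exp_ne_zero _)
    · linear_combination h4
  have hmain : π v * (A.derivative.eval (π w) + g (τ w) * B.derivative.eval (π w) -
      B.eval (π w) * g (τ w) * deriv h (π w)) = 0 := by
    rw [hEv, hgv] at hv
    linear_combination hv
  have hX : A.eval (π w) + B.eval (π w) * g (τ w) = 1 := by
    rw [hE'] at hw
    exact hw
  have hv0 : π v = 0 := by
    rcases mul_eq_zero.1 hmain with h1 | h1
    · exact h1
    exfalso
    by_cases hB : B.eval (π w) = 0
    · apply hs w hw
      ext u
      rw [hEv, hB]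
      rw [hB] at h1
      simp only [ContinuousLinearMap.zero_apply]
      linear_combination (π u) * h1
    · by_cases hP : (1 - A).eval (π w) = 0
      · have hA1 : A.eval (π w) = 1 := by
          simp only [Polynomial.eval_sub, Polynomial.eval_one] at hP
          linear_combination -hP
        have hg0 : g (τ w) = 0 := by
          rw [hA1] at hX
          have : B.eval (π w) * g (τ w) = 0 := by linear_combination hX
          exact (mul_eq_zero.1 this).resolve_left hB
        rw [hg0] at h1
        have hA' : A.derivative.eval (π w) = 0 := by linear_combination h1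
        rcases hA with hA | ⟨z, hz, hz'⟩
        · have hsep : (1 - A).Separable := by
            exact PerfectField.separable_iff_squarefree.2 hA
          have h2 := hsep.eval₂_derivative_ne_zero (RingHom.id ℂ) (x := π w) (by
            simpa [Polynomial.eval₂_id] using hP)
          apply h2
          simp [Polynomial.eval₂_id, hA']
        · -- the point `(w, z)`
          let u : Fin (n + 1) → ℂ := Fin.cons (π w) z
          have hu0 : π u = π w := by rw [hπ u]; exact Fin.cons_zero _ _
          have hu1 : τ u = z := by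
            rw [hτ]
            ext i
            exact Fin.cons_succ _ _ _
          have hgz : g z = 0 := hz
          have hdz : fderiv ℂ g z = 0 := by
            ext y
            change fderiv ℂ (fun z : Fin n → ℂ => eval z G) z _ = _
            rw [fderiv_eval]
            simp [hz']
          apply hs u
          · rw [hE']
            change A.eval (π u) + B.eval (π u) * g (τ u) = 1
            rw [hu0, hu1, hgz, hA1]
            ring
          · ext y
            rw [hEv, hu0, hu1, hgz, hA', hdz]
            simp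
      · refine hne (π w) hP hB ?_
        have h2 : (1 - A).eval (π w) = B.eval (π w) * g (τ w) := by
          simp only [Polynomial.eval_sub, Polynomial.eval_one]
          linear_combination -hX
        have h3 : (1 - A).derivative.eval (π w) = - A.derivative.eval (π w) := by simp
        rw [h2, h3]
        linear_combination (-B.eval (π w)) * h1
  -- `v` lies in the fibre
  have hτv : τ v = 0 := by
    have h1 : ∀ w, τ w = φ (- h (π w)) (f w) := by
      intro w
      change τ w = φ (- h (π w)) (φ (h (π w)) (τ w))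
      rw [← hφ.add, neg_add_cancel, hφ.zero]
    have h2 : HasFDerivAt (fun w => (- h (π w), f w))
        ((-(deriv h (π w) • π)).prod (fderiv ℂ f w)) w := by
      have h3 : HasFDerivAt (fun w => h (π w)) (deriv h (π w) • π) w :=
        (hh (π w)).hasDerivAt.comp_hasFDerivAt w π.hasFDerivAt
      exact h3.neg.prodMk (hf w).hasFDerivAt
    have h3 : HasFDerivAt (fun w => φ (- h (π w)) (f w))
        ((fderiv ℂ (fun p : ℂ × (Fin n → ℂ) => φ p.1 p.2) (- h (π w), f w)).comp
          ((-(deriv h (π w) • π)).prod (fderiv ℂ f w))) w :=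
      HasFDerivAt.comp (g := fun p : ℂ × (Fin n → ℂ) => φ p.1 p.2) w
        (hφ.diff (- h (π w), f w)).hasFDerivAt h2
    have h4 : HasFDerivAt (fun w => φ (- h (π w)) (f w)) τ w := by
      rw [← funext h1]
      exact τ.hasFDerivAt
    have h5 := congrArg (fun L => L v) (h4.unique h3)
    simp only [ContinuousLinearMap.comp_apply, ContinuousLinearMap.prod_apply, hfv,
      ContinuousLinearMap.neg_apply, ContinuousLinearMap.smul_apply, hv0, smul_zero, neg_zero] at h5
    rw [h5]
    exact map_zero _
  ext i
  refine Fin.cases hv0 (fun j => ?_) i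
  exact congrFun hτv j

end Pool.Agent.Helper40.IM
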