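import Mathlib

/-!
# An entire function with prescribed behaviour at the zeros of two polynomials
-/

open Polynomial

namespace Pool.Agent.Helper40.IM

/-- An entire function that vanishes on a finite set is divisible by the product. -/
theorem exists_quot (S : Finset ℂ) : ∀ (f : ℂ → ℂ), Differentiable ℂ f → (∀ r ∈ S, f r = 0) →
    ∃ g : ℂ → ℂ, Differentiable ℂ g ∧ ∀ w, f w = (∏ r ∈ S, (w - r)) * g w := by
  classical
  induction S using Finset.induction_on with
  | empty => exact fun f hf _ => ⟨f, hf, by simp⟩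
  | insert a S ha ih =>
    intro f hf h0
    have hd : Differentiable ℂ (dslope f a) := by
      have h1 : DifferentiableOn ℂ (dslope f a) Set.univ :=
        (Complex.differentiableOn_dslope (by simp)).2 hf.differentiableOn
      exact differentiableOn_univ.1 h1
    have hfa : ∀ w, f w = (w - a) * dslope f a w := by
      intro w
      have := sub_smul_dslope f a w
      rw [h0 a (by simp), sub_zero] at this
      simpa using this.symm
    obtain ⟨g, hg, hgw⟩ := ih (dslope f a) hd (by
      intro r hr
      have h1 := hfa r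
      rw [h0 r (by simp [hr])] at h1
      have h2 : r - a ≠ 0 := by
        intro h
        rw [sub_eq_zero] at h
        exact ha (h ▸ hr)
      rcases mul_eq_zero.1 h1.symm with h | h
      · exact absurd h h2
      · exact h)
    refine ⟨g, hg, fun w => ?_⟩
    rw [Finset.prod_insert ha, hfa w, hgw w, mul_assoc]

/-- For a finite set `S` and nonzero numbers `ρ r` there is an entire function `E` such that
`∑ ρ r / (w - r) + E w` has no zero. -/
theorem exists_entire (S : Finset ℂ) (ρ : ℂ → ℂ) (hρ : ∀ r ∈ S, ρ r ≠ 0) :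
    ∃ E : ℂ → ℂ, Differentiable ℂ E ∧ ∀ w, w ∉ S → ∑ r ∈ S, ρ r / (w - r) + E w ≠ 0 := by
  classical
  -- the values at the points
  let c : ℂ → ℂ := fun r => ρ r * ∏ s ∈ S.erase r, (r - s)
  have hc : ∀ r ∈ S, c r ≠ 0 := by
    intro r hr
    refine mul_ne_zero (hρ r hr) (Finset.prod_ne_zero_iff.2 fun s hs => ?_)
    rw [sub_ne_zero]
    exact (Finset.ne_of_mem_erase hs).symm
  let k : ℂ[X] := Lagrange.interpolate S id (fun r => Complex.log (c r))
  have hk : ∀ r ∈ S, Complex.exp (k.eval r) = c r := by
    intro r hr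
    have h1 : k.eval (id r) = Complex.log (c r) :=
      Lagrange.eval_interpolate_at_node _ (Function.injective_id.injOn) hr
    rw [id] at h1
    rw [h1, Complex.exp_log (hc r hr)]
  let f : ℂ → ℂ := fun w => Complex.exp (k.eval w) - ∑ r ∈ S, ρ r * ∏ s ∈ S.erase r, (w - s)
  have hf : Differentiable ℂ f := by
    have h1 : Differentiable ℂ fun w : ℂ => k.eval w := k.differentiable
    have h2 : ∀ r ∈ S, Differentiable ℂ fun w : ℂ => ρ r * ∏ s ∈ S.erase r, (w - s) := by
      intro r _
      refine Differentiable.const_mul ?_ _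
      exact Differentiable.fun_finsetProd fun s _ => differentiable_id.sub_const s
    exact h1.cexp.sub (Differentiable.fun_sum h2)
  have hf0 : ∀ r ∈ S, f r = 0 := by
    intro r hr
    have h1 : ∑ t ∈ S, ρ t * ∏ s ∈ S.erase t, (r - s) = c r := by
      rw [Finset.sum_eq_single r]
      · intro t ht htr
        have : ∏ s ∈ S.erase t, (r - s) = 0 :=
          Finset.prod_eq_zero (Finset.mem_erase.2 ⟨htr.symm, hr⟩) (sub_self r)
        rw [this, mul_zero]
      · intro h
        exact absurd hr h
    change Complex.exp (k.eval r) - _ = 0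
    rw [h1, hk r hr, sub_self]
  obtain ⟨g, hg, hgw⟩ := exists_quot S f hf hf0
  refine ⟨g, hg, fun w hw h0 => ?_⟩
  have hne : ∀ r ∈ S, w - r ≠ 0 := by
    intro r hr h
    rw [sub_eq_zero] at h
    exact hw (h ▸ hr)
  have hprod : (∏ r ∈ S, (w - r)) ≠ 0 := Finset.prod_ne_zero_iff.2 hne
  have h1 : (∏ r ∈ S, (w - r)) * (∑ r ∈ S, ρ r / (w - r) + g w) = Complex.exp (k.eval w) := by
    rw [mul_add, ← hgw w, Finset.mul_sum]
    have h2 : ∀ r ∈ S, (∏ s ∈ S, (w - s)) * (ρ r / (w - r)) = ρ r * ∏ s ∈ S.erase r, (w - s) := by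
      intro r hr
      rw [← Finset.mul_prod_erase S _ hr]
      field_simp [hne r hr]
    rw [Finset.sum_congr rfl h2]
    change _ + (Complex.exp (k.eval w) - _) = _
    ring
  rw [h0, mul_zero] at h1
  exact Complex.exp_ne_zero _ h1.symm

/-- For two polynomials `P`, `Q` there is an entire function `E` such that
`P' Q - P Q' + P Q E` has no zeros except those of `P Q`. -/
theorem exists_logDeriv (P Q : ℂ[X]) : ∃ h : ℂ → ℂ, Differentiable ℂ h ∧ ∀ w, P.eval w ≠ 0 →
    Q.eval w ≠ 0 → P.derivative.eval w * Q.eval w - P.eval w * Q.derivative.eval w +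
      P.eval w * Q.eval w * deriv h w ≠ 0 := by
  classical
  by_cases hP : P = 0
  · exact ⟨0, differentiable_const _, fun w h => by simp [hP] at h⟩
  by_cases hQ : Q = 0
  · exact ⟨0, differentiable_const _, fun w _ h => by simp [hQ] at h⟩
  let ρ : ℂ → ℂ := fun r => (P.roots.count r : ℂ) - (Q.roots.count r : ℂ)
  let T : Finset ℂ := P.roots.toFinset ∪ Q.roots.toFinset
  let S : Finset ℂ := T.filter fun r => ρ r ≠ 0
  obtain ⟨E, hE, hEw⟩ := exists_entire S ρ (fun r hr => (Finset.mem_filter.1 hr).2)
  obtain ⟨h, hh⟩ := hE.isExactOn_univ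
  have hdiff : Differentiable ℂ h := fun z => (hh z trivial).differentiableAt
  have hder : ∀ z, deriv h z = E z := fun z => (hh z trivial).deriv
  refine ⟨h, hdiff, fun w hPw hQw h0 => ?_⟩
  have key : ∀ (R : ℂ[X]), R ≠ 0 → R.roots.toFinset ⊆ T → R.eval w ≠ 0 →
      R.derivative.eval w / R.eval w = ∑ r ∈ T, (R.roots.count r : ℂ) / (w - r) := by
    intro R hR hRT hRw
    rw [(IsAlgClosed.splits R).eval_derivative_div_eval_of_ne_zero hRw]
    rw [Finset.sum_multiset_map_count]
    rw [← Finset.sum_subset hRT]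
    · refine Finset.sum_congr rfl fun r _ => ?_
      rw [nsmul_eq_mul]
      ring
    · intro r _ hr
      have : R.roots.count r = 0 := by
        rw [Multiset.count_eq_zero]
        exact fun h => hr (Multiset.mem_toFinset.2 h)
      rw [this, Nat.cast_zero, zero_div]
  have hPd := key P hP Finset.subset_union_left hPw
  have hQd := key Q hQ Finset.subset_union_right hQw
  have hwS : w ∉ S := by
    intro hw
    have h1 := (Finset.mem_filter.1 hw).1
    rcases Finset.mem_union.1 h1 with h | h
    · exact hPw ((Polynomial.mem_roots hP).1 (Multiset.mem_toFinset.1 h))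
    · exact hQw ((Polynomial.mem_roots hQ).1 (Multiset.mem_toFinset.1 h))
  have hsum : ∑ r ∈ S, ρ r / (w - r) = ∑ r ∈ T, ρ r / (w - r) := by
    rw [Finset.sum_filter_of_ne]
    intro r _ hr h
    exact hr (by rw [h, zero_div])
  have hlog : P.derivative.eval w / P.eval w - Q.derivative.eval w / Q.eval w + E w ≠ 0 := by
    have h1 := hEw w hwS
    rw [hsum] at h1
    have h2 : ∑ r ∈ T, ρ r / (w - r) =
        P.derivative.eval w / P.eval w - Q.derivative.eval w / Q.eval w := by
      rw [hPd, hQd, ← Finset.sum_sub_distrib]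
      refine Finset.sum_congr rfl fun r _ => ?_
      rw [← sub_div]
    rwa [h2] at h1
  apply hlog
  rw [hder w] at h0
  field_simp
  linear_combination h0

end Pool.Agent.Helper40.IM
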